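import Mathlib

set_option autoImplicit false

namespace Q36.MC

/-- natural pseudo-Frobenius numbers. -/
def PFN (T : AddSubmonoid ℕ) : Set ℕ := {f | f ∉ T ∧ ∀ s ∈ T, s ≠ 0 → f + s ∈ T}

/-- combinatorial data attached to a numerical semigroup. -/
structure Data (T : AddSubmonoid ℕ) (F d : ℕ) (A : Finset ℕ) : Prop where
  hF : F ∉ T
  hF' : ∀ n, F < n → n ∈ T
  hFd : F < d
  mem : ∀ a ∈ A, a ∈ T ∧ 0 < a ∧ a + F < d
  pair : ∀ a ∈ A, ∀ b ∈ A, d ≤ a + b → (a + b - d ∈ A ∨ a + b = d ∨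
    (a + b - d ∉ T ∧ a + b - d ∉ PFN T))
  small : ∀ x ∈ T, 0 < x → x ≤ 2 * F + 2 → x ∈ A
  two : ∀ x ∈ T, 0 < x → x < d → x ∉ A → ∃ a ∈ A, ∃ b ∈ A, x = a + b
  gap2 : ∀ g, g ∉ T → g ∉ PFN T → ∃ a ∈ A, ∃ b ∈ A, d + g = a + b
  pf3 : ∀ f ∈ PFN T, ∃ a ∈ A, ∃ b ∈ A, ∃ c ∈ A, d + f = a + b + c
  up1 : ∀ x ∈ A, ∃ a ∈ A, x + a < d ∧ x + a ∉ A
  up2 : ∀ x ∈ T, 0 < x → x < d → x ∉ A → ∃ a ∈ A, ∃ f ∈ PFN T, x + a = d + f
  upg : ∀ g, g ∉ T → g ∉ PFN T → ∃ a ∈ A, ∃ f ∈ PFN T, g + a = f

theorem gap_below {T : AddSubmonoid ℕ} {F : ℕ} (hF' : ∀ n, F < n → n ∈ T) :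
    ∀ (m g : ℕ), F - g ≤ m → g ∉ T → ∃ f ∈ PFN T, ∃ s ∈ T, f = g + s := by
  intro m
  induction m with
  | zero =>
    intro g hg hgT
    have hgF : g ≤ F := by
      by_contra h
      exact hgT (hF' g (by omega))
    have : g = F := by omega
    subst this
    exact ⟨g, ⟨hgT, fun s _ h0 => hF' _ (by omega)⟩, 0, T.zero_mem, rfl⟩
  | succ m ih =>
    intro g hg hgT
    by_cases hP : g ∈ PFN T
    · exact ⟨g, hP, 0, T.zero_mem, rfl⟩
    · have : ∃ s ∈ T, s ≠ 0 ∧ g + s ∉ T := by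
        by_contra hcon
        push Not at hcon
        exact hP ⟨hgT, fun s hs h0 => hcon s hs h0⟩
      obtain ⟨s, hs, h0, hgs⟩ := this
      have hgF : g + s ≤ F := by
        by_contra h
        exact hgs (hF' _ (by omega))
      obtain ⟨f, hf, s', hs', he⟩ := ih (g + s) (by omega) hgs
      exact ⟨f, hf, s + s', T.add_mem hs hs', by omega⟩

theorem exists_data (T : AddSubmonoid ℕ) (F : ℕ) (hF : F ∉ T) (hF' : ∀ n, F < n → n ∈ T) :
    ∃ (d : ℕ) (A : Finset ℕ), Data T F d A := by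
  classical
  have hF1 : 1 ≤ F := by
    by_contra h
    have : F = 0 := by omega
    exact hF (this ▸ T.zero_mem)
  have hP1 : ∀ f ∈ PFN T, 1 ≤ f ∧ f ≤ F := by
    intro f hf
    constructor
    · by_contra h
      have : f = 0 := by omega
      exact hf.1 (this ▸ T.zero_mem)
    · by_contra h
      exact hf.1 (hF' f (by omega))
  have hFP : F ∈ PFN T := ⟨hF, fun s _ h0 => hF' _ (by omega)⟩
  obtain ⟨N, hN⟩ : ∃ N, N = 30 * (F + 1) := ⟨_, rfl⟩
  obtain ⟨d, hd⟩ : ∃ d, d = 2 * N + (F + 1) % 2 := ⟨_, rfl⟩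
  obtain ⟨R, hR⟩ : ∃ R, R = N + 3 * F + 3 := ⟨_, rfl⟩
  have hε : (F + 1) % 2 < 2 := Nat.mod_lt _ (by norm_num)
  have hodd : ∀ y, 2 * y ≠ d + F := by
    intro y h
    omega
  -- loops
  let V : Finset ℕ := (Finset.range d).filter (fun v => ∃ f ∈ PFN T, 2 * (d + F - v) = d + f)
  have hV : ∀ v, v ∈ V ↔ v < d ∧ ∃ f ∈ PFN T, 2 * (d + F - v) = d + f := by
    intro v; simp [V]
  have hVb : ∀ v ∈ V, d < 2 * v ∧ 2 * v ≤ d + 2 * F := by
    intro v hv
    obtain ⟨h1, f, hf, h2⟩ := (hV v).mp hv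
    have h3 := hP1 f hf
    omega
  let S0 : Finset ℕ := (Finset.range d).filter (fun x => x ∈ T ∧ 0 < x ∧ 2 * x ≤ d ∧
    (∀ f ∈ PFN T, x + R ≠ d + f) ∧ ∀ v ∈ V, ∀ f ∈ PFN T, x + v ≠ d + f)
  have hS0 : ∀ x, x ∈ S0 ↔ x < d ∧ x ∈ T ∧ 0 < x ∧ 2 * x ≤ d ∧
    (∀ f ∈ PFN T, x + R ≠ d + f) ∧ ∀ v ∈ V, ∀ f ∈ PFN T, x + v ≠ d + f := by
    intro x; simp only [S0, Finset.mem_filter, Finset.mem_range]
  let A0 : Finset ℕ := insert R (V ∪ S0)
  let TT : Finset ℕ := (Finset.range d).filter (fun x => x ∈ T ∧ 0 < x)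
  have hTT : ∀ x, x ∈ TT ↔ x < d ∧ x ∈ T ∧ 0 < x := by
    intro x; simp [TT]
  let CF : Finset ℕ → Prop := fun S => ∀ x ∈ S, ∀ y ∈ S, ∀ f ∈ PFN T, x + y ≠ d + f
  have hA0CF : CF A0 := by
    intro x hx y hy f hf
    have hfb := hP1 f hf
    simp only [A0, Finset.mem_insert, Finset.mem_union] at hx hy
    rcases hx with hx | hx | hx <;> rcases hy with hy | hy | hy
    · omega
    · have := hVb y hy; omega
    · have := ((hS0 y).mp hy).2.2.2.2.1 f hf; omega
    · have := hVb x hx; omega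
    · obtain ⟨h1, f1, hf1, h2⟩ := (hV x).mp hx
      obtain ⟨h1', f1', hf1', h2'⟩ := (hV y).mp hy
      have e1 := hP1 f1 hf1
      have e2 := hP1 f1' hf1'
      have e3 : f1 ≠ F := by
        rintro rfl; exact hodd _ h2
      have e4 : f1' ≠ F := by
        rintro rfl; exact hodd _ h2'
      omega
    · have := ((hS0 y).mp hy).2.2.2.2.2 x hx f hf; omega
    · have := ((hS0 x).mp hx).2.2.2.2.1 f hf; omega
    · have := ((hS0 x).mp hx).2.2.2.2.2 y hy f hf; omega
    · have h1 := ((hS0 x).mp hx).2.2.2.1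
      have h2 := ((hS0 y).mp hy).2.2.2.1
      omega
  have hA0T : A0 ⊆ TT := by
    intro x hx
    rw [hTT]
    simp only [A0, Finset.mem_insert, Finset.mem_union] at hx
    rcases hx with hx | hx | hx
    · refine ⟨by omega, hF' _ (by omega), by omega⟩
    · have := hVb x hx
      refine ⟨((hV x).mp hx).1, hF' _ (by omega), by omega⟩
    · have := (hS0 x).mp hx
      exact ⟨this.1, this.2.1, this.2.2.1⟩
  obtain ⟨A, hA, hmax⟩ := Finset.exists_max_image
    ((TT.powerset).filter (fun S => A0 ⊆ S ∧ CF S)) Finset.card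
    ⟨A0, Finset.mem_filter.mpr ⟨Finset.mem_powerset.mpr hA0T, Finset.Subset.refl _, hA0CF⟩⟩
  rw [Finset.mem_filter, Finset.mem_powerset] at hA
  obtain ⟨hAT, hA0A, hACF⟩ := hA
  have hRA : R ∈ A := hA0A (by simp [A0])
  have hVA : ∀ v ∈ V, v ∈ A := fun v hv => hA0A (by simp [A0, hv])
  have hSA : ∀ x ∈ S0, x ∈ A := fun x hx => hA0A (by simp [A0, hx])
  -- small elements
  have hsm : ∀ x ∈ T, 0 < x → x + R ≤ d → x ∈ A := by
    intro x hx h0 hxR
    apply hSA
    rw [hS0]
    refine ⟨by omega, hx, h0, by omega, ?_, ?_⟩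
    · intro f hf
      have := hP1 f hf
      omega
    · intro v hv f hf
      have h1 := hP1 f hf
      have h2 := hVb v hv
      omega
  -- lower half elements
  have hlow : ∀ x, 0 < x → F < x → 2 * x + 2 * F < d → (∀ f ∈ PFN T, x + R ≠ d + f) → x ∈ A := by
    intro x h0 hxF hx hxR
    apply hSA
    rw [hS0]
    refine ⟨by omega, hF' _ hxF, h0, by omega, hxR, ?_⟩
    intro v hv f hf
    have h1 := hP1 f hf
    have h2 := hVb v hv
    omega
  have hup : ∀ x ∈ A, x ≤ R + F := by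
    intro x hx
    by_contra hcon
    have h1 := (hTT x).mp (hAT hx)
    have h2 : d + F - x ∈ A := hsm _ (hF' _ (by omega)) (by omega) (by omega)
    exact hACF x hx _ h2 F hFP (by omega)
  have hconf : ∀ x ∈ T, 0 < x → x < d → x ∉ A → ∃ a ∈ A, ∃ f ∈ PFN T, x + a = d + f := by
    intro x hx h0 hxd hxA
    by_contra hcon
    push Not at hcon
    by_cases hloop : ∃ f ∈ PFN T, 2 * x = d + f
    · obtain ⟨f, hf, h2⟩ := hloop
      have hf1 := hP1 f hf
      have hv : d + F - x ∈ V := by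
        rw [hV]
        refine ⟨?_, f, hf, by omega⟩
        have : f ≠ F := by
          rintro rfl; exact hodd _ h2
        omega
      exact hcon _ (hVA _ hv) F hFP (by omega)
    · push Not at hloop
      have hins : insert x A ∈ (TT.powerset).filter (fun S => A0 ⊆ S ∧ CF S) := by
        rw [Finset.mem_filter, Finset.mem_powerset]
        refine ⟨?_, ?_, ?_⟩
        · intro y hy
          rcases Finset.mem_insert.mp hy with rfl | hy
          · exact (hTT y).mpr ⟨hxd, hx, h0⟩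
          · exact hAT hy
        · exact hA0A.trans (Finset.subset_insert _ _)
        · intro y hy z hz f hf
          rcases Finset.mem_insert.mp hy with hy1 | hy1 <;> rcases Finset.mem_insert.mp hz with hz1 | hz1
          · have := hloop f hf; omega
          · rw [hy1]; exact hcon z hz1 f hf
          · have := hcon y hy1 f hf; omega
          · exact hACF y hy1 z hz1 f hf
      have := hmax _ hins
      rw [Finset.card_insert_of_notMem hxA] at this
      omega
  refine ⟨d, A, hF, hF', by omega, ?_, ?_, ?_, ?_, ?_, ?_, ?_, hconf, ?_⟩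
  · -- mem
    intro a ha
    have h1 := (hTT a).mp (hAT ha)
    have h2 := hup a ha
    exact ⟨h1.2.1, h1.2.2, by omega⟩
  · -- pair
    intro a ha b hb hab
    by_cases h0 : a + b = d
    · exact Or.inr (Or.inl h0)
    · by_cases hT : a + b - d ∈ T
      · left
        have h1 := hup a ha
        have h2 := hup b hb
        exact hsm _ hT (by omega) (by omega)
      · right; right
        refine ⟨hT, ?_⟩
        intro hP
        exact hACF a ha b hb _ hP (by omega)
  · -- small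
    intro x hx h0 hx2
    exact hsm x hx h0 (by omega)
  · -- two
    intro x hx h0 hxd hxA
    have hxR : d < x + R := by
      by_contra h
      exact hxA (hsm x hx h0 (by omega))
    by_cases hx2 : x ≤ 2 * (d - R)
    · have ha : ∀ y, F < y → y + R ≤ d → y ∈ A := fun y h1 h2 => hsm y (hF' _ h1) (by omega) h2
      by_cases hc : x ≤ d - R + F + 1
      · exact ⟨F + 1, ha _ (by omega) (by omega), x - (F + 1), ha _ (by omega) (by omega), by omega⟩
      · exact ⟨x - (d - R), ha _ (by omega) (by omega), d - R, ha _ (by omega) (by omega), by omega⟩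
    · exact ⟨R, hRA, x - R, hsm _ (hF' _ (by omega)) (by omega) (by omega), by omega⟩
  · -- gap2
    intro g hg hgP
    have hgF : g ≤ F := by
      by_contra h
      exact hg (hF' g (by omega))
    refine ⟨R, hRA, d + g - R, hlow _ (by omega) (by omega) (by omega) ?_, by omega⟩
    intro f hf h
    have : g = f := by omega
    exact hgP (this ▸ hf)
  · -- pf3
    intro f hf
    have h1 := hP1 f hf
    refine ⟨R, hRA, F + 1, hsm _ (hF' _ (by omega)) (by omega) (by omega),
      d + f - R - (F + 1), hlow _ (by omega) (by omega) (by omega) ?_, by omega⟩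
    intro f' hf' h
    have := hP1 f' hf'
    omega
  · -- up1
    intro x hx
    have h1 := (hTT x).mp (hAT hx)
    have h2 := hup x hx
    by_cases hxs : x + R + F < d
    · obtain ⟨M, hM, hMmax⟩ := Finset.exists_max_image A id ⟨R, hRA⟩
      refine ⟨M, hM, ?_, ?_⟩
      · have := hup M hM; omega
      · intro h
        have := hMmax _ h
        simp only [id] at this
        omega
    · refine ⟨R + 2 * F + 2 - x, hsm _ (hF' _ (by omega)) (by omega) (by omega), by omega, ?_⟩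
      intro h
      have := hup _ h
      omega
  · -- upg
    intro g hg hgP
    obtain ⟨f, hf, s, hs, he⟩ := gap_below hF' (F - g) g le_rfl hg
    have h1 := hP1 f hf
    have hs0 : s ≠ 0 := by
      rintro rfl
      apply hgP
      rw [add_zero] at he
      exact he ▸ hf
    exact ⟨s, hsm s hs (by omega) (by omega), f, hf, he.symm⟩

end Q36.MC
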