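import Mathlib

set_option autoImplicit false

namespace Q36.MC

open MvPolynomial

/-- The set of pseudo-Frobenius numbers of a submonoid `T` of the natural numbers: the integers `x`
not in `T` with `x + s` in `T` for all nonzero `s` in `T`. -/
def pseudoFrobenius (T : AddSubmonoid ℕ) : Set ℤ :=
  {x | (¬ ∃ n ∈ T, (n : ℤ) = x) ∧ ∀ s ∈ T, s ≠ 0 → ∃ n ∈ T, (n : ℤ) = x + s}

/-- The monomial `u ^ a * v ^ (d - a)` in `k[u, v]`, where `u = X 0` and `v = X 1`. -/
noncomputable def gen (k : Type*) [Field k] (d a : ℕ) : MvPolynomial (Fin 2) k :=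
  X 0 ^ a * X 1 ^ (d - a)

/-- The homogeneous coordinate ring `k[u ^ a * v ^ (d - a) : a ∈ A]` of the projective monomial
curve, as a subalgebra of `k[u, v]`. -/
noncomputable def coordRing (k : Type*) [Field k] (d : ℕ) (A : Finset ℕ) :
    Subalgebra k (MvPolynomial (Fin 2) k) :=
  Algebra.adjoin k {p | ∃ a ∈ A, p = gen k d a}

/-- The irrelevant maximal ideal of the coordinate ring, generated by the monomials
`u ^ a * v ^ (d - a)`. -/
noncomputable def irr (k : Type*) [Field k] (d : ℕ) (A : Finset ℕ) : Ideal (coordRing k d A) :=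
  Ideal.span {r | ∃ a ∈ A, (r : MvPolynomial (Fin 2) k) = gen k d a}

/-- Cohen-Macaulayness at the ideal `m` of a ring of dimension two: there is a regular sequence of
length two in `m`. -/
def IsCMTwo (R : Type*) [CommRing R] (m : Ideal R) : Prop :=
  ∃ x ∈ m, ∃ y ∈ m, RingTheory.Sequence.IsRegular R [x, y]

/-- The Cohen-Macaulay type (at `m`, in depth two) is `t`: for every regular sequence `x, y` in `m`
the socle of `R / (x, y)`, that is the set of its elements killed by `m`, has dimension `t`. -/
def HasType (k R : Type*) [Field k] [CommRing R] [Algebra k R] (m : Ideal R) (t : ℕ) : Prop :=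
  ∀ x ∈ m, ∀ y ∈ m, RingTheory.Sequence.IsRegular R [x, y] →
    Module.finrank k (Submodule.torsionBySet R (R ⧸ Ideal.span {x, y}) (m : Set R)) = t

end Q36.MC
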