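import Mathlib

set_option autoImplicit false

namespace Q36.MC

open RingTheory.Sequence

section

variable {R : Type*} [CommRing R]

/-- elementwise form of a weakly regular sequence of length two. -/
def Reg2 (x y : R) : Prop := (∀ a, x * a = 0 → a = 0) ∧ ∀ a, x ∣ y * a → x ∣ a

theorem isRegular_iff2 (x y : R) : IsRegular R [x, y] ↔
    Reg2 x y ∧ Ideal.span {x, y} ≠ (⊤ : Ideal R) := by
  rw [isRegular_iff, isWeaklyRegular_iff_Fin]
  have e1 : Ideal.ofList [x, y] • (⊤ : Submodule R R) = Ideal.span {x, y} := by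
    rw [Ideal.ofList_cons, Ideal.ofList_singleton, ← Ideal.span_insert]
    simp
  rw [e1]
  constructor
  · rintro ⟨h1, h2⟩
    refine ⟨⟨?_, ?_⟩, h2.symm⟩
    · intro a ha
      have h3 := h1 ⟨0, by simp⟩
      rw [isSMulRegular_quotient_iff_mem_of_smul_mem] at h3
      have h4 := h3 a
      simp only [List.take_zero, Ideal.ofList_nil, Submodule.bot_smul, Submodule.mem_bot] at h4
      exact h4 ha
    · intro a ha
      have h3 := h1 ⟨1, by simp⟩
      rw [isSMulRegular_quotient_iff_mem_of_smul_mem] at h3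
      have h4 := h3 a
      simp only [List.take_succ_cons, List.take_zero, Ideal.ofList_singleton] at h4
      have e2 : (Ideal.span {x} • (⊤ : Submodule R R)) = Ideal.span {x} := by simp
      rw [e2, Ideal.mem_span_singleton, Ideal.mem_span_singleton] at h4
      exact h4 ha
  · rintro ⟨⟨h1, h2⟩, h3⟩
    refine ⟨?_, h3.symm⟩
    intro i
    rw [isSMulRegular_quotient_iff_mem_of_smul_mem]
    intro a ha
    match i, ha with
    | ⟨0, _⟩, ha =>
      simp only [List.take_zero, Ideal.ofList_nil, Submodule.bot_smul, Submodule.mem_bot] at ha ⊢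
      exact h1 a ha
    | ⟨1, _⟩, ha =>
      simp only [List.take_succ_cons, List.take_zero, Ideal.ofList_singleton] at ha ⊢
      have e2 : (Ideal.span {x} • (⊤ : Submodule R R)) = Ideal.span {x} := by simp
      rw [e2, Ideal.mem_span_singleton] at ha ⊢
      exact h2 a ha

theorem Reg2.swap [IsDomain R] {x y : R} (h : Reg2 x y) (hx : x ≠ 0) (hy : y ≠ 0) : Reg2 y x := by
  refine ⟨fun a ha => (mul_eq_zero.mp ha).resolve_left hy, ?_⟩
  rintro a ⟨b, hb⟩
  obtain ⟨c, hc⟩ := h.2 b ⟨a, hb.symm⟩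
  refine ⟨c, ?_⟩
  have : x * (a - y * c) = 0 := by
    rw [mul_sub, hb, hc]; ring
  exact sub_eq_zero.mp ((mul_eq_zero.mp this).resolve_left hx)

/-- socle with respect to an ideal `m` of the quotient by `(x, y)`. -/
abbrev soc (m : Ideal R) (x y : R) : Submodule R (R ⧸ Ideal.span {x, y}) :=
  Submodule.torsionBySet R (R ⧸ Ideal.span {x, y}) (m : Set R)

theorem mem_soc (m : Ideal R) (x y : R) (s : R) :
    Ideal.Quotient.mk (Ideal.span {x, y}) s ∈ soc m x y ↔ ∀ r ∈ m, r * s ∈ Ideal.span {x, y} := by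
  rw [soc, Submodule.mem_torsionBySet_iff]
  constructor
  · intro h r hr
    have h1 := h ⟨r, hr⟩
    rw [← Ideal.Quotient.eq_zero_iff_mem]
    exact h1
  · intro h r
    have h1 := h r r.2
    rw [← Ideal.Quotient.eq_zero_iff_mem] at h1
    exact h1

/-- the correspondence between two socles. -/
def corr (m : Ideal R) (x y y' : R) : Submodule R (R × R) where
  carrier := {p | x ∣ y' * p.1 - y * p.2 ∧ (∀ r ∈ m, r * p.1 ∈ Ideal.span {x, y}) ∧
    ∀ r ∈ m, r * p.2 ∈ Ideal.span {x, y'}}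
  zero_mem' := by
    refine ⟨by simp, fun r _ => by simp, fun r _ => by simp⟩
  add_mem' := by
    rintro ⟨a, b⟩ ⟨a', b'⟩ ⟨h1, h2, h3⟩ ⟨h1', h2', h3'⟩
    refine ⟨?_, fun r hr => ?_, fun r hr => ?_⟩
    · have := dvd_add h1 h1'
      simp only [Prod.mk_add_mk] at this ⊢
      convert this using 1
      ring
    · simp only [Prod.mk_add_mk, mul_add]
      exact Ideal.add_mem _ (h2 r hr) (h2' r hr)
    · simp only [Prod.mk_add_mk, mul_add]
      exact Ideal.add_mem _ (h3 r hr) (h3' r hr)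
  smul_mem' := by
    rintro c ⟨a, b⟩ ⟨h1, h2, h3⟩
    refine ⟨?_, fun r hr => ?_, fun r hr => ?_⟩
    · have := h1.mul_left c
      simp only [Prod.smul_mk, smul_eq_mul] at this ⊢
      convert this using 1
      ring
    · simp only [Prod.smul_mk, smul_eq_mul]
      have := Ideal.mul_mem_left _ c (h2 r hr)
      convert this using 1
      ring
    · simp only [Prod.smul_mk, smul_eq_mul]
      have := Ideal.mul_mem_left _ c (h3 r hr)
      convert this using 1
      ring

theorem corr_symm (m : Ideal R) (x y y' : R) (s s' : R) :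
    (s, s') ∈ corr m x y y' ↔ (s', s) ∈ corr m x y' y := by
  constructor
  · rintro ⟨h1, h2, h3⟩
    refine ⟨?_, h3, h2⟩
    simp only at h1 ⊢
    rw [← dvd_neg]
    convert h1 using 1
    ring
  · rintro ⟨h1, h2, h3⟩
    refine ⟨?_, h3, h2⟩
    simp only at h1 ⊢
    rw [← dvd_neg]
    convert h1 using 1
    ring

theorem corr_surj {m : Ideal R} {x y y' : R} (hy : y ∈ m) (hy' : y' ∈ m) (h : Reg2 x y)
    (s : R) (hs : ∀ r ∈ m, r * s ∈ Ideal.span {x, y}) : ∃ s', (s, s') ∈ corr m x y y' := by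
  have h1 := hs y' hy'
  rw [Ideal.mem_span_pair] at h1
  obtain ⟨a, b, hab⟩ := h1
  refine ⟨b, ?_, hs, ?_⟩
  · refine ⟨a, ?_⟩
    simp only
    rw [← hab]; ring
  · intro r hr
    have h2 := hs r hr
    rw [Ideal.mem_span_pair] at h2 ⊢
    obtain ⟨c, e, hce⟩ := h2
    -- r s = c x + e y ; y' s = a x + b y ; so y (r b) = y' r s - a r x = y' c x + y' e y - a r x
    have h3 : x ∣ y * (r * b - y' * e) := by
      refine ⟨y' * c - a * r, ?_⟩
      linear_combination r * hab - y' * hce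
    obtain ⟨q, hq⟩ := h.2 _ h3
    refine ⟨q, e, ?_⟩
    linear_combination -hq

theorem corr_ker {m : Ideal R} {x y y' : R} (h : Reg2 x y) (s s' : R)
    (hs : (s, s') ∈ corr m x y y') (h0 : s ∈ Ideal.span {x, y}) : s' ∈ Ideal.span {x, y'} := by
  obtain ⟨⟨q, hq⟩, _, _⟩ := hs
  simp only at hq
  rw [Ideal.mem_span_pair] at h0 ⊢
  obtain ⟨a, b, hab⟩ := h0
  have h3 : x ∣ y * (s' - y' * b) := by
    refine ⟨y' * a - q, ?_⟩
    linear_combination -hq - y' * hab
  obtain ⟨c, hc⟩ := h.2 _ h3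
  exact ⟨c, b, by linear_combination -hc⟩

/-- projection of the correspondence. -/
noncomputable def projL (m : Ideal R) (x y y' : R) : corr m x y y' →ₗ[R] soc m x y where
  toFun p := ⟨Ideal.Quotient.mk _ p.1.1, (mem_soc m x y _).mpr p.2.2.1⟩
  map_add' := by
    intro p q
    apply Subtype.ext
    simp
  map_smul' := by
    intro c p
    apply Subtype.ext
    simp [Algebra.smul_def]

noncomputable def projR (m : Ideal R) (x y y' : R) : corr m x y y' →ₗ[R] soc m x y' where
  toFun p := ⟨Ideal.Quotient.mk _ p.1.2, (mem_soc m x y' _).mpr p.2.2.2⟩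
  map_add' := by
    intro p q
    apply Subtype.ext
    simp
  map_smul' := by
    intro c p
    apply Subtype.ext
    simp [Algebra.smul_def]

theorem exchange {m : Ideal R} {x y y' : R} (hy : y ∈ m) (hy' : y' ∈ m) (h : Reg2 x y)
    (h' : Reg2 x y') : Nonempty (soc m x y ≃ₗ[R] soc m x y') := by
  have s1 : Function.Surjective (projL m x y y') := by
    rintro ⟨z, hz⟩
    obtain ⟨s, rfl⟩ := Ideal.Quotient.mk_surjective z
    rw [mem_soc] at hz
    obtain ⟨s', hs'⟩ := corr_surj hy hy' h s hz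
    exact ⟨⟨(s, s'), hs'⟩, rfl⟩
  have s2 : Function.Surjective (projR m x y y') := by
    rintro ⟨z, hz⟩
    obtain ⟨s, rfl⟩ := Ideal.Quotient.mk_surjective z
    rw [mem_soc] at hz
    obtain ⟨s', hs'⟩ := corr_surj hy' hy h' s hz
    exact ⟨⟨(s', s), (corr_symm m x y y' s' s).mpr hs'⟩, rfl⟩
  have hk : LinearMap.ker (projL m x y y') = LinearMap.ker (projR m x y y') := by
    ext p
    obtain ⟨⟨s, s'⟩, hp⟩ := p
    rw [LinearMap.mem_ker, LinearMap.mem_ker]
    have e1 : projL m x y y' ⟨(s, s'), hp⟩ = 0 ↔ s ∈ Ideal.span {x, y} := by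
      rw [← Ideal.Quotient.eq_zero_iff_mem, ← Subtype.val_inj]
      rfl
    have e2 : projR m x y y' ⟨(s, s'), hp⟩ = 0 ↔ s' ∈ Ideal.span {x, y'} := by
      rw [← Ideal.Quotient.eq_zero_iff_mem, ← Subtype.val_inj]
      rfl
    rw [e1, e2]
    exact ⟨corr_ker h s s' hp, corr_ker h' s' s ((corr_symm m x y y' s s').mp hp)⟩
  exact ⟨((LinearMap.quotKerEquivOfSurjective _ s1).symm.trans
    (Submodule.quotEquivOfEq _ _ hk)).trans (LinearMap.quotKerEquivOfSurjective _ s2)⟩

theorem reg2_iff {x z : R} (hx : ∀ a, x * a = 0 → a = 0) :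
    Reg2 x z ↔ IsSMulRegular (R ⧸ Ideal.span {x}) z := by
  rw [isSMulRegular_quotient_iff_mem_of_smul_mem]
  simp only [Ideal.mem_span_singleton, smul_eq_mul, Reg2]
  exact ⟨fun h => h.2, fun h => ⟨hx, h⟩⟩

theorem exists_common [IsNoetherianRing R] {m : Ideal R} {x y x' y' : R} (hy : y ∈ m) (hy' : y' ∈ m)
    (h : Reg2 x y) (h' : Reg2 x' y') : ∃ z ∈ m, Reg2 x z ∧ Reg2 x' z := by
  by_contra hcon
  push Not at hcon
  have hf1 := associatedPrimes.finite R (R ⧸ Ideal.span {x})
  have hf2 := associatedPrimes.finite R (R ⧸ Ideal.span {x'})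
  have key : ∃ p ∈ associatedPrimes R (R ⧸ Ideal.span {x}) ∪ associatedPrimes R (R ⧸ Ideal.span {x'}),
      m ≤ p := by
    apply (Ideal.subset_union_prime_finite (f := id) (hf1.union hf2) ⊤ ⊤ _).mp
    · intro z hz
      rw [Set.biUnion_union]
      by_cases hz1 : Reg2 x z
      · right
        have h3 := hcon z hz hz1
        rw [reg2_iff h'.1] at h3
        have h4 := biUnion_associatedPrimes_eq_compl_regular R (R ⧸ Ideal.span {x'})
        have h5 : z ∈ {r : R | IsSMulRegular (R ⧸ Ideal.span {x'}) r}ᶜ := h3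
        rw [← h4] at h5
        exact h5
      · left
        rw [reg2_iff h.1] at hz1
        have h4 := biUnion_associatedPrimes_eq_compl_regular R (R ⧸ Ideal.span {x})
        have h5 : z ∈ {r : R | IsSMulRegular (R ⧸ Ideal.span {x}) r}ᶜ := hz1
        rw [← h4] at h5
        exact h5
    · rintro p (hp | hp) _ _
      · exact IsAssociatedPrime.isPrime hp
      · exact IsAssociatedPrime.isPrime hp
  obtain ⟨p, hp | hp, hmp⟩ := key
  · have h4 := biUnion_associatedPrimes_eq_compl_regular R (R ⧸ Ideal.span {x})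
    have h5 : y ∈ ⋃ p ∈ associatedPrimes R (R ⧸ Ideal.span {x}), (p : Set R) :=
      Set.mem_biUnion hp (hmp hy)
    rw [h4] at h5
    exact h5 ((reg2_iff h.1).mp h)
  · have h4 := biUnion_associatedPrimes_eq_compl_regular R (R ⧸ Ideal.span {x'})
    have h5 : y' ∈ ⋃ p ∈ associatedPrimes R (R ⧸ Ideal.span {x'}), (p : Set R) :=
      Set.mem_biUnion hp (hmp hy')
    rw [h4] at h5
    exact h5 ((reg2_iff h'.1).mp h')

theorem soc_swap (m : Ideal R) (x y : R) : Nonempty (soc m x y ≃ₗ[R] soc m y x) := by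
  have h : Ideal.span {x, y} = Ideal.span {y, x} := by rw [Set.pair_comm]
  have : ∀ (I J : Ideal R), I = J → Nonempty ((Submodule.torsionBySet R (R ⧸ I) (m : Set R)) ≃ₗ[R]
      (Submodule.torsionBySet R (R ⧸ J) (m : Set R))) := by
    rintro I J rfl
    exact ⟨LinearEquiv.refl _ _⟩
  exact this _ _ h

theorem soc_indep [IsNoetherianRing R] [IsDomain R] {m : Ideal R} (hm : m ≠ ⊤) {x y x' y' : R}
    (hx : x ∈ m) (hy : y ∈ m) (hx' : x' ∈ m) (hy' : y' ∈ m)
    (h : Reg2 x y) (h' : Reg2 x' y') : Nonempty (soc m x y ≃ₗ[R] soc m x' y') := by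
  have hne : ∀ {a b : R}, a ∈ m → Reg2 a b → b ≠ 0 := by
    rintro a b ha hab rfl
    obtain ⟨c, hc⟩ := hab.2 1 (by simp)
    exact hm (Ideal.eq_top_of_isUnit_mem _ ha (IsUnit.of_mul_eq_one _ hc.symm))
  have hne' : ∀ {a b : R}, Reg2 a b → a ≠ 0 := by
    rintro a b hab rfl
    exact one_ne_zero (hab.1 1 (by simp))
  obtain ⟨z, hz, h1, h2⟩ := exists_common hy hy' h h'
  have hz0 := hne hx h1
  have hx0 := hne' h
  have hx0' := hne' h'
  have s1 := h1.swap hx0 hz0
  have s2 := h2.swap hx0' hz0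
  obtain ⟨e1⟩ := exchange hy hz h h1
  obtain ⟨e2⟩ := soc_swap m x z
  obtain ⟨e3⟩ := exchange hx hx' s1 s2
  obtain ⟨e4⟩ := soc_swap m z x'
  obtain ⟨e5⟩ := exchange hz hy' h2 h'
  exact ⟨(((e1.trans e2).trans e3).trans e4).trans e5⟩

theorem finrank_eq_of_ker {k M N P : Type*} [Field k] [AddCommGroup M] [Module k M]
    [AddCommGroup N] [Module k N] [AddCommGroup P] [Module k P] (f : M →ₗ[k] N) (g : M →ₗ[k] P)
    (hf : Function.Surjective f) (hg : Function.Surjective g)
    (h : ∀ x, f x = 0 ↔ g x = 0) : Module.finrank k N = Module.finrank k P := by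
  have h' : LinearMap.ker f = LinearMap.ker g := by
    ext x
    exact h x
  let e := ((LinearMap.quotKerEquivOfSurjective f hf).symm.trans
    (Submodule.quotEquivOfEq _ _ h')).trans (LinearMap.quotKerEquivOfSurjective g hg)
  exact e.finrank_eq

/-- preimage of the socle. -/
def preSoc (k : Type*) [Field k] [Algebra k R] (m : Ideal R) (x y : R) : Submodule k R where
  carrier := {p | ∀ r ∈ m, r * p ∈ Ideal.span {x, y}}
  zero_mem' := by
    intro r _
    rw [mul_zero]; exact Ideal.zero_mem _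
  add_mem' := by
    intro p q hp hq r hr
    rw [mul_add]; exact Ideal.add_mem _ (hp r hr) (hq r hr)
  smul_mem' := by
    intro c p hp r hr
    rw [mul_smul_comm, Algebra.smul_def]
    exact Ideal.mul_mem_left _ _ (hp r hr)

theorem soc_finrank_of {k ι : Type*} [Field k] [Algebra k R] [Fintype ι]
    (m : Ideal R) (x y : R) (φ : R →ₗ[k] (ι → k))
    (ha : ∀ p, (∀ r ∈ m, r * p ∈ Ideal.span {x, y}) → φ p = 0 → p ∈ Ideal.span {x, y})
    (hb : ∀ p ∈ Ideal.span {x, y}, φ p = 0)
    (hc : ∀ g : ι → k, ∃ p, (∀ r ∈ m, r * p ∈ Ideal.span {x, y}) ∧ φ p = g) :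
    Module.finrank k (soc m x y) = Fintype.card ι := by
  let f1 : preSoc k m x y →ₗ[k] soc m x y :=
    { toFun := fun p => ⟨Ideal.Quotient.mk _ p.1, (mem_soc _ _ _ _).mpr p.2⟩
      map_add' := by
        intro p q
        apply Subtype.ext
        simp
      map_smul' := by
        intro c p
        apply Subtype.ext
        rfl }
  let f2 : preSoc k m x y →ₗ[k] (ι → k) := φ.comp (preSoc k m x y).subtype
  have h1 : Function.Surjective f1 := by
    rintro ⟨z, hz⟩
    obtain ⟨s, rfl⟩ := Ideal.Quotient.mk_surjective z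
    rw [mem_soc] at hz
    exact ⟨⟨s, hz⟩, rfl⟩
  have h2 : Function.Surjective f2 := by
    intro g
    obtain ⟨p, hp, hg⟩ := hc g
    exact ⟨⟨p, hp⟩, hg⟩
  have h3 : ∀ p, f1 p = 0 ↔ f2 p = 0 := by
    intro p
    have e1 : f1 p = 0 ↔ (p : R) ∈ Ideal.span {x, y} := by
      rw [← Ideal.Quotient.eq_zero_iff_mem, ← Subtype.val_inj]
      rfl
    have e2 : f2 p = φ (p : R) := rfl
    rw [e1, e2]
    exact ⟨hb _, ha _ p.2⟩
  rw [finrank_eq_of_ker f1 f2 h1 h2 h3, Module.finrank_fintype_fun_eq_card]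

theorem soc_finrank {k : Type*} [Field k] [Algebra k R] [IsNoetherianRing R] [IsDomain R]
    {m : Ideal R} (hm : m ≠ ⊤) {x y x' y' : R}
    (hx : x ∈ m) (hy : y ∈ m) (hx' : x' ∈ m) (hy' : y' ∈ m)
    (h : Reg2 x y) (h' : Reg2 x' y') :
    Module.finrank k (soc m x y) = Module.finrank k (soc m x' y') := by
  obtain ⟨e⟩ := soc_indep hm hx hy hx' hy' h h'
  exact (e.restrictScalars k).finrank_eq

end

end Q36.MC
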