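import Mathlib
import Pool.Agent.Q36.MC.Comb

set_option autoImplicit false

namespace Q36.MC

open Classical in
/-- weight of a residue. -/
noncomputable def wt (T : AddSubmonoid ℕ) (A : Finset ℕ) (r : ℕ) : ℕ :=
  if r = 0 then 0 else if r ∈ A then 1 else if r ∈ T then 2 else if r ∈ PFN T then 2 else 1

/-- the degree of an element. -/
noncomputable def kap (T : AddSubmonoid ℕ) (d : ℕ) (A : Finset ℕ) (x : ℕ) : ℕ :=
  wt T A (x % d) + x / d

variable {T : AddSubmonoid ℕ} {F d : ℕ} {A : Finset ℕ}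

theorem wt_zero : wt T A 0 = 0 := by simp [wt]

theorem wt_mem (D : Data T F d A) {r : ℕ} (h : r ∈ A) : wt T A r = 1 := by
  have := (D.mem r h).2.1
  simp [wt, h, this.ne']

theorem wt_T {r : ℕ} (h0 : r ≠ 0) (h : r ∈ T) (hA : r ∉ A) : wt T A r = 2 := by
  simp [wt, h0, hA, h]

theorem wt_P (D : Data T F d A) {r : ℕ} (h : r ∈ PFN T) : wt T A r = 2 := by
  have h0 : r ≠ 0 := by rintro rfl; exact h.1 T.zero_mem
  have hA : r ∉ A := fun hA => h.1 (D.mem r hA).1
  simp [wt, h0, hA, h.1, h]

theorem wt_gap (D : Data T F d A) {r : ℕ} (h : r ∉ T) (hP : r ∉ PFN T) : wt T A r = 1 := by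
  have h0 : r ≠ 0 := by rintro rfl; exact h T.zero_mem
  have hA : r ∉ A := fun hA => h (D.mem r hA).1
  simp [wt, h0, hA, h, hP]

theorem wt_le (r : ℕ) : wt T A r ≤ 2 := by
  rw [wt]
  split_ifs <;> omega

theorem wt_pos {r : ℕ} (h : r ≠ 0) : 1 ≤ wt T A r := by
  rw [wt]
  split_ifs <;> first | omega | exact absurd ‹_› h

theorem wt_one (D : Data T F d A) {r : ℕ} (h : wt T A r = 1) : r ∈ A ∨ (r ∉ T ∧ r ∉ PFN T) := by
  by_cases hA : r ∈ A
  · exact Or.inl hA
  · right
    have h0 : r ≠ 0 := by rintro rfl; rw [wt_zero] at h; omega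
    constructor
    · intro hT
      rw [wt_T h0 hT hA] at h; omega
    · intro hP
      rw [wt_P D hP] at h; omega

theorem le_F (D : Data T F d A) {g : ℕ} (hg : g ∉ T) : g ≤ F := by
  by_contra h
  exact hg (D.hF' g (by omega))

theorem d_pos (D : Data T F d A) : 0 < d := lt_of_le_of_lt (Nat.zero_le _) D.hFd

theorem d_mem (D : Data T F d A) : d ∈ T := D.hF' d D.hFd

theorem kap_add_d (D : Data T F d A) (x : ℕ) : kap T d A (x + d) = kap T d A x + 1 := by
  rw [kap, kap, Nat.add_mod_right, Nat.add_div_right _ (d_pos D)]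
  rfl

theorem kap_lt (x : ℕ) (h : x < d) : kap T d A x = wt T A x := by
  rw [kap, Nat.mod_eq_of_lt h, Nat.div_eq_of_lt h, add_zero]

theorem kap_zero (D : Data T F d A) : kap T d A 0 = 0 := by
  rw [kap_lt 0 (d_pos D), wt_zero]

theorem kap_d (D : Data T F d A) : kap T d A d = 1 := by
  have := kap_add_d D 0
  rw [zero_add, kap_zero D] at this
  exact this

theorem kap_mem (D : Data T F d A) {a : ℕ} (h : a ∈ A) : kap T d A a = 1 := by
  have := (D.mem a h).2.2
  rw [kap_lt a (by omega), wt_mem D h]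

theorem kap_ge (D : Data T F d A) (x : ℕ) : x ≤ kap T d A x * d := by
  have hd := d_pos D
  have h1 := Nat.div_add_mod x d
  have h2 := Nat.mod_lt x hd
  rw [kap, add_mul]
  by_cases h0 : x % d = 0
  · rw [h0, add_zero] at h1
    rw [mul_comm] at h1
    omega
  · have h3 := wt_pos (T := T) (A := A) h0
    have h4 : 1 * d ≤ wt T A (x % d) * d := Nat.mul_le_mul_right d h3
    have h5 : x / d * d = d * (x / d) := mul_comm _ _
    omega

theorem kap_sub (D : Data T F d A) {x y : ℕ} (hx : x ∈ T) (hy : y ∈ T) :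
    kap T d A (x + y) ≤ kap T d A x + kap T d A y := by
  have hd := d_pos D
  rw [kap, kap, kap]
  have hx1 := Nat.mod_lt x hd
  have hy1 := Nat.mod_lt y hd
  by_cases hc : x % d + y % d < d
  · have e1 : (x + y) % d = x % d + y % d := by
      rw [Nat.add_mod, Nat.mod_eq_of_lt hc]
    have e2 : (x + y) / d = x / d + y / d := Nat.add_div_eq_of_add_mod_lt hc
    rw [e1, e2]
    by_cases hx0 : x % d = 0
    · rw [hx0, zero_add, wt_zero]; omega
    · by_cases hy0 : y % d = 0
      · rw [hy0, add_zero, wt_zero]; omega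
      · have h1 := wt_pos (T := T) (A := A) hx0
        have h2 := wt_pos (T := T) (A := A) hy0
        have h3 := wt_le (T := T) (A := A) (x % d + y % d)
        omega
  · push Not at hc
    have e1 : (x + y) % d = x % d + y % d - d := by
      rw [Nat.add_mod, Nat.mod_eq_sub_mod hc, Nat.mod_eq_of_lt (by omega)]
    have e2 : (x + y) / d = x / d + y / d + 1 := Nat.add_div_eq_of_le_mod_add_mod hc hd
    rw [e1, e2]
    have hx0 : x % d ≠ 0 := by omega
    have hy0 : y % d ≠ 0 := by omega
    have h1 := wt_pos (T := T) (A := A) hx0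
    have h2 := wt_pos (T := T) (A := A) hy0
    have h3 := wt_le (T := T) (A := A) (x % d + y % d - d)
    by_cases h4 : wt T A (x % d) = 1
    · by_cases h5 : wt T A (y % d) = 1
      · have key : wt T A (x % d + y % d - d) ≤ 1 := by
          rcases wt_one D h4 with ha | ha
          · rcases wt_one D h5 with hb | hb
            · rcases D.pair _ ha _ hb hc with h | h | h
              · rw [wt_mem D h]
              · rw [h, Nat.sub_self, wt_zero]; omega
              · rw [wt_gap D h.1 h.2]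
            · have := le_F D hb.1
              have := (D.mem _ ha).2.2
              omega
          · have hxF := le_F D ha.1
            rcases wt_one D h5 with hb | hb
            · have := (D.mem _ hb).2.2
              omega
            · exfalso
              have hyF := le_F D hb.1
              -- both are gaps; sum at most 2 F, use an element of A
              obtain ⟨a, ha', b, hb', he⟩ := D.gap2 _ hb.1 hb.2
              have k1 := (D.mem a ha').2.2
              have k2 := (D.mem b hb').2.2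
              omega
        omega
      · omega
    · omega

/-- the exponents of degree one. -/
def gens (d : ℕ) (A : Finset ℕ) : Set (ℕ × ℕ) := {p | p.2 = 1 ∧ (p.1 = 0 ∨ p.1 = d ∨ p.1 ∈ A)}

theorem gen_zero (m : ℕ) : ((0, m) : ℕ × ℕ) ∈ AddSubmonoid.closure (gens d A) := by
  have h1 : ((0, 1) : ℕ × ℕ) ∈ AddSubmonoid.closure (gens d A) :=
    AddSubmonoid.subset_closure ⟨rfl, Or.inl rfl⟩
  have h2 := AddSubmonoid.nsmul_mem _ h1 m
  simpa using h2

theorem gen_add {x m n : ℕ} (h : ((x, m) : ℕ × ℕ) ∈ AddSubmonoid.closure (gens d A)) (hmn : m ≤ n) :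
    ((x, n) : ℕ × ℕ) ∈ AddSubmonoid.closure (gens d A) := by
  have h1 := AddSubmonoid.add_mem _ h (gen_zero (d := d) (A := A) (n - m))
  have h2 : ((x, m) : ℕ × ℕ) + (0, n - m) = (x, n) := by
    ext
    · simp
    · simp; omega
  rwa [h2] at h1

theorem gen_mem {a : ℕ} (h : a ∈ A) : ((a, 1) : ℕ × ℕ) ∈ AddSubmonoid.closure (gens d A) :=
  AddSubmonoid.subset_closure ⟨rfl, Or.inr (Or.inr h)⟩

theorem gen_all (D : Data T F d A) : ∀ x ∈ T, ((x, kap T d A x) : ℕ × ℕ) ∈
    AddSubmonoid.closure (gens d A) := by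
  have hd := d_pos D
  intro x
  induction x using Nat.strong_induction_on with
  | _ x ih =>
    intro hx
    by_cases hxd : x < d
    · rw [kap_lt x hxd]
      by_cases h0 : x = 0
      · rw [h0, wt_zero]; exact AddSubmonoid.zero_mem _
      by_cases hA : x ∈ A
      · rw [wt_mem D hA]; exact gen_mem hA
      · rw [wt_T h0 hx hA]
        obtain ⟨a, ha, b, hb, he⟩ := D.two x hx (by omega) hxd hA
        have := AddSubmonoid.add_mem _ (gen_mem (d := d) ha) (gen_mem (d := d) hb)
        rw [he]; exact this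
    · push Not at hxd
      obtain ⟨y, rfl⟩ : ∃ y, x = y + d := ⟨x - d, by omega⟩
      rw [kap_add_d D]
      by_cases hy : y ∈ T
      · have h1 := ih y (by omega) hy
        have h2 : ((d, 1) : ℕ × ℕ) ∈ AddSubmonoid.closure (gens d A) :=
          AddSubmonoid.subset_closure ⟨rfl, Or.inr (Or.inl rfl)⟩
        exact AddSubmonoid.add_mem _ h1 h2
      · have hyF := le_F D hy
        have hFd := D.hFd
        rw [kap_lt y (by omega)]
        by_cases hP : y ∈ PFN T
        · rw [wt_P D hP]
          obtain ⟨a, ha, b, hb, c, hc, he⟩ := D.pf3 y hP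
          have := AddSubmonoid.add_mem _ (AddSubmonoid.add_mem _ (gen_mem (d := d) ha)
            (gen_mem (d := d) hb)) (gen_mem (d := d) hc)
          rw [add_comm y d, he]; exact this
        · rw [wt_gap D hy hP]
          obtain ⟨a, ha, b, hb, he⟩ := D.gap2 y hy hP
          have := AddSubmonoid.add_mem _ (gen_mem (d := d) ha) (gen_mem (d := d) hb)
          rw [add_comm y d, he]; exact this

/-- the closure of the generators. -/
theorem closure_iff (D : Data T F d A) (x m : ℕ) :
    ((x, m) : ℕ × ℕ) ∈ AddSubmonoid.closure (gens d A) ↔ x ∈ T ∧ kap T d A x ≤ m := by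
  constructor
  · intro h
    let M : AddSubmonoid (ℕ × ℕ) :=
      { carrier := {p | p.1 ∈ T ∧ kap T d A p.1 ≤ p.2}
        zero_mem' := ⟨T.zero_mem, by rw [Prod.fst_zero, kap_zero D]; exact Nat.zero_le _⟩
        add_mem' := by
          rintro ⟨x, m⟩ ⟨y, n⟩ ⟨h1, h2⟩ ⟨h3, h4⟩
          refine ⟨T.add_mem h1 h3, ?_⟩
          exact (kap_sub D h1 h3).trans (Nat.add_le_add h2 h4) }
    have hle : AddSubmonoid.closure (gens d A) ≤ M := by
      rw [AddSubmonoid.closure_le]
      rintro ⟨a, n⟩ ⟨h1, h2⟩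
      simp only at h1 h2
      subst h1
      rcases h2 with rfl | rfl | h2
      · exact ⟨T.zero_mem, by simp only; rw [kap_zero D]; omega⟩
      · exact ⟨d_mem D, by simp only; rw [kap_d D]⟩
      · exact ⟨(D.mem a h2).1, by simp only; rw [kap_mem D h2]⟩
    exact hle h
  · rintro ⟨h1, h2⟩
    exact gen_add (gen_all D x h1) h2

/-- the socle criterion. -/
theorem exists_up (D : Data T F d A) {x : ℕ} (hx : x ∈ T) (hap : ¬ (d ≤ x ∧ x - d ∈ T))
    (hP : ¬ (d ≤ x ∧ x - d ∈ PFN T)) :
    ∃ a ∈ A, kap T d A (x + a) = kap T d A x + 1 ∧ ¬ (d ≤ x + a ∧ x + a - d ∈ T) := by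
  by_cases hxd : x < d
  · rw [kap_lt x hxd]
    by_cases h0 : x = 0
    · subst h0
      obtain ⟨a, ha⟩ : ∃ a, a ∈ A := by
        have := D.small (F + 1) (D.hF' _ (by omega)) (by omega) (by omega)
        exact ⟨_, this⟩
      refine ⟨a, ha, ?_, ?_⟩
      · rw [zero_add, kap_mem D ha, wt_zero]
      · have := (D.mem a ha).2.2
        omega
    by_cases hA : x ∈ A
    · obtain ⟨a, ha, h1, h2⟩ := D.up1 x hA
      refine ⟨a, ha, ?_, by omega⟩
      rw [kap_lt _ h1, wt_mem D hA, wt_T (by omega) (T.add_mem hx (D.mem a ha).1) h2]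
    · obtain ⟨a, ha, f, hf, he⟩ := D.up2 x hx (by omega) hxd hA
      refine ⟨a, ha, ?_, ?_⟩
      · rw [he, add_comm d f, kap_add_d D, kap_lt f (lt_of_le_of_lt (le_F D hf.1) D.hFd),
          wt_P D hf, wt_T h0 hx hA]
      · rw [he]
        rintro ⟨_, h⟩
        rw [Nat.add_sub_cancel_left] at h
        exact hf.1 h
  · push Not at hxd
    obtain ⟨g, rfl⟩ : ∃ g, x = g + d := ⟨x - d, by omega⟩
    have hg : g ∉ T := fun h => hap ⟨by omega, by rwa [Nat.add_sub_cancel]⟩
    have hgP : g ∉ PFN T := fun h => hP ⟨by omega, by rwa [Nat.add_sub_cancel]⟩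
    obtain ⟨a, ha, f, hf, he⟩ := D.upg g hg hgP
    refine ⟨a, ha, ?_, ?_⟩
    · rw [show g + d + a = f + d by omega, kap_add_d D, kap_add_d D,
        kap_lt f (lt_of_le_of_lt (le_F D hf.1) D.hFd), wt_P D hf,
        kap_lt g (lt_of_le_of_lt (le_F D hg) D.hFd), wt_gap D hg hgP]
    · rw [show g + d + a = f + d by omega, Nat.add_sub_cancel]
      rintro ⟨_, h⟩
      exact hf.1 h

end Q36.MC
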