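import Mathlib
import Pool.Agent.Q36.MC.Kap
import Pool.Agent.Q36.MC.Exch
import Pool.Agent.Q36.MC.Defs

set_option autoImplicit false

namespace Q36.MC

open MvPolynomial

variable {k : Type*} [Field k] {T : AddSubmonoid ℕ} {F d : ℕ} {A : Finset ℕ}

/-- all exponents, endpoints included. -/
def full (d : ℕ) (A : Finset ℕ) : Finset ℕ := insert 0 (insert d A)

theorem mem_full (a : ℕ) : a ∈ full d A ↔ a = 0 ∨ a = d ∨ a ∈ A := by
  simp [full]

/-- exponent vector. -/
noncomputable def ev (a b : ℕ) : Fin 2 →₀ ℕ := Finsupp.single 0 a + Finsupp.single 1 b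

@[simp] theorem ev_zero (a b : ℕ) : ev a b 0 = a := by simp [ev]
@[simp] theorem ev_one (a b : ℕ) : ev a b 1 = b := by simp [ev]

theorem ev_eta (s : Fin 2 →₀ ℕ) : ev (s 0) (s 1) = s := by
  ext i
  fin_cases i <;> simp

theorem ext2 {s t : Fin 2 →₀ ℕ} (h0 : s 0 = t 0) (h1 : s 1 = t 1) : s = t := by
  ext i
  fin_cases i
  · exact h0
  · exact h1

theorem mon_eq (a b : ℕ) (c : k) : (monomial (ev a b) c : MvPolynomial (Fin 2) k) =
    C c * (X 0 ^ a * X 1 ^ b) := by
  rw [ev, X_pow_eq_monomial, X_pow_eq_monomial, monomial_mul, C_mul_monomial, mul_one, mul_one]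

theorem gen_eq (a : ℕ) : gen k d a = monomial (ev a (d - a)) 1 := by
  rw [mon_eq, gen, C_1, one_mul]

/-- the exponents of the coordinate ring. -/
def InB (T : AddSubmonoid ℕ) (d : ℕ) (A : Finset ℕ) (s : Fin 2 →₀ ℕ) : Prop :=
  ∃ m, s 0 + s 1 = m * d ∧ s 0 ∈ T ∧ kap T d A (s 0) ≤ m

theorem InB_zero (D : Data T F d A) : InB T d A 0 :=
  ⟨0, by simp, by simpa using T.zero_mem, by simp [kap_zero D]⟩

theorem InB_add (D : Data T F d A) {s t : Fin 2 →₀ ℕ} (hs : InB T d A s) (ht : InB T d A t) :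
    InB T d A (s + t) := by
  obtain ⟨m, h1, h2, h3⟩ := hs
  obtain ⟨n, h4, h5, h6⟩ := ht
  refine ⟨m + n, ?_, ?_, ?_⟩
  · simp only [Finsupp.add_apply]; rw [add_mul]; omega
  · exact T.add_mem h2 h5
  · exact (kap_sub D h2 h5).trans (Nat.add_le_add h3 h6)

theorem InB_gen (D : Data T F d A) {a : ℕ} (ha : a ∈ full d A) : InB T d A (ev a (d - a)) := by
  rw [mem_full] at ha
  have had : a ≤ d := by
    rcases ha with rfl | rfl | ha
    · omega
    · omega
    · have := (D.mem a ha).2.2; omega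
  refine ⟨1, ?_, ?_, ?_⟩
  · simp only [ev_zero, ev_one]; omega
  · rw [ev_zero]
    rcases ha with rfl | rfl | ha
    · exact T.zero_mem
    · exact d_mem D
    · exact (D.mem a ha).1
  · rw [ev_zero]
    rcases ha with rfl | rfl | ha
    · rw [kap_zero D]; omega
    · rw [kap_d D]
    · rw [kap_mem D ha]

/-- polynomials supported on `InB`. -/
def subB (k : Type*) [Field k] (D : Data T F d A) : Subalgebra k (MvPolynomial (Fin 2) k) where
  carrier := {p | ∀ s ∈ p.support, InB T d A s}
  mul_mem' := by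
    classical
    intro p q hp hq s hs
    have h1 := support_mul p q hs
    rw [Finset.mem_add] at h1
    obtain ⟨a, ha, b, hb, rfl⟩ := h1
    exact InB_add D (hp a ha) (hq b hb)
  add_mem' := by
    classical
    intro p q hp hq s hs
    have h1 := support_add hs
    rcases Finset.mem_union.mp h1 with h | h
    · exact hp s h
    · exact hq s h
  algebraMap_mem' := by
    intro c s hs
    rw [algebraMap_eq] at hs
    have : s = 0 := by
      by_contra h
      rw [mem_support_iff, coeff_C, if_neg (Ne.symm h)] at hs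
      exact hs rfl
    rw [this]; exact InB_zero D

theorem mem_subB (D : Data T F d A) (p : MvPolynomial (Fin 2) k) :
    p ∈ subB k D ↔ ∀ s ∈ p.support, InB T d A s := Iff.rfl

theorem mono_mem (D : Data T F d A) (p : ℕ × ℕ) (hp : p ∈ AddSubmonoid.closure (gens d A)) :
    p.1 ≤ p.2 * d ∧ (X 0 ^ p.1 * X 1 ^ (p.2 * d - p.1) : MvPolynomial (Fin 2) k) ∈
      coordRing k d (full d A) := by
  induction hp using AddSubmonoid.closure_induction with
  | mem q hq =>
    obtain ⟨h1, h2⟩ := hq
    rw [h1, one_mul]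
    have had : q.1 ≤ d := by
      rcases h2 with h | h | h
      · omega
      · omega
      · have := (D.mem _ h).2.2; omega
    exact ⟨had, Algebra.subset_adjoin ⟨q.1, (mem_full _).mpr h2, rfl⟩⟩
  | zero => simp
  | add q r _ _ hq hr =>
    obtain ⟨h1, h2⟩ := hq
    obtain ⟨h3, h4⟩ := hr
    refine ⟨?_, ?_⟩
    · simp only [Prod.fst_add, Prod.snd_add, add_mul]; omega
    · have := Subalgebra.mul_mem _ h2 h4
      convert this using 1
      simp only [Prod.fst_add, Prod.snd_add, add_mul]
      rw [show q.2 * d + r.2 * d - (q.1 + r.1) = (q.2 * d - q.1) + (r.2 * d - r.1) by omega]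
      ring

theorem coordRing_eq (D : Data T F d A) : coordRing k d (full d A) = subB k D := by
  apply le_antisymm
  · apply Algebra.adjoin_le
    rintro p ⟨a, ha, rfl⟩
    intro s hs
    rw [gen_eq] at hs
    have h1 := support_monomial_subset hs
    rw [Finset.mem_singleton] at h1
    rw [h1]
    exact InB_gen D ha
  · intro p hp
    rw [p.as_sum]
    apply Subalgebra.sum_mem
    intro s hs
    obtain ⟨m, h1, h2, h3⟩ := hp s hs
    have h4 := mono_mem (k := k) D (s 0, m) ((closure_iff D _ _).mpr ⟨h2, h3⟩)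
    have h5 : monomial s (coeff s p) = algebraMap k (MvPolynomial (Fin 2) k) (coeff s p) *
        (X 0 ^ (s 0) * X 1 ^ (m * d - s 0)) := by
      conv_lhs => rw [← ev_eta s]
      rw [mon_eq, algebraMap_eq, show m * d - s 0 = s 1 by omega, ev_eta]
    rw [h5]
    exact Subalgebra.mul_mem _ (Subalgebra.algebraMap_mem _ _) h4.2

theorem mem_ring (D : Data T F d A) (p : MvPolynomial (Fin 2) k) :
    p ∈ coordRing k d (full d A) ↔ ∀ s ∈ p.support, InB T d A s := by
  rw [coordRing_eq D, mem_subB]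

theorem monomial_mem (D : Data T F d A) {s : Fin 2 →₀ ℕ} (hs : InB T d A s) (c : k) :
    monomial s c ∈ coordRing k d (full d A) := by
  rw [mem_ring D]
  intro t ht
  have h1 := support_monomial_subset ht
  rw [Finset.mem_singleton] at h1
  rw [h1]; exact hs

/-- degree of a vector of InB. -/
theorem InB_left (D : Data T F d A) {s : Fin 2 →₀ ℕ} (h1 : InB T d A (ev d 0 + s))
    (h2 : InB T d A (ev 0 d + s)) : InB T d A s := by
  have hd := d_pos D
  obtain ⟨m, e1, e2, e3⟩ := h1
  obtain ⟨n, e4, e5, e6⟩ := h2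
  simp only [Finsupp.add_apply, ev_zero, ev_one, zero_add] at e1 e2 e3 e4 e5 e6
  rw [add_comm d (s 0), kap_add_d D] at e3
  refine ⟨m - 1, ?_, e5, by omega⟩
  rw [Nat.sub_mul, one_mul, ← e1]
  omega

/-- exponents in the ideal generated by the two end monomials. -/
def InJ (T : AddSubmonoid ℕ) (d : ℕ) (A : Finset ℕ) (s : Fin 2 →₀ ℕ) : Prop :=
  (∃ t, s = ev d 0 + t ∧ InB T d A t) ∨ (∃ t, s = ev 0 d + t ∧ InB T d A t)

theorem InJ_iff (D : Data T F d A) {s : Fin 2 →₀ ℕ} {m : ℕ} (h1 : s 0 + s 1 = m * d)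
    (h2 : s 0 ∈ T) (h3 : kap T d A (s 0) ≤ m) :
    ¬ InJ T d A s ↔ kap T d A (s 0) = m ∧ ¬ (d ≤ s 0 ∧ s 0 - d ∈ T) := by
  have hd := d_pos D
  constructor
  · intro h
    constructor
    · by_contra hne
      have hlt : kap T d A (s 0) ≤ m - 1 := by omega
      have hge := kap_ge D (s 0)
      have hle : kap T d A (s 0) * d ≤ (m - 1) * d := Nat.mul_le_mul_right d hlt
      have hm : 1 ≤ m := by omega
      have hmd : m * d = (m - 1) * d + d := by
        obtain ⟨n, rfl⟩ : ∃ n, m = n + 1 := ⟨m - 1, by omega⟩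
        rw [Nat.add_sub_cancel, add_mul, one_mul]
      apply h
      right
      refine ⟨ev (s 0) (s 1 - d), ?_, m - 1, ?_, ?_, ?_⟩
      · apply ext2
        · simp
        · simp only [Finsupp.add_apply, ev_one]; omega
      · simp only [ev_zero, ev_one]; omega
      · rw [ev_zero]; exact h2
      · rw [ev_zero]; exact hlt
    · rintro ⟨h4, h5⟩
      apply h
      left
      have h6 : s 0 = (s 0 - d) + d := by omega
      rw [h6, kap_add_d D] at h3
      have hmd : m * d = (m - 1) * d + d := by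
        obtain ⟨n, rfl⟩ : ∃ n, m = n + 1 := ⟨m - 1, by omega⟩
        rw [Nat.add_sub_cancel, add_mul, one_mul]
      refine ⟨ev (s 0 - d) (s 1), ?_, m - 1, ?_, ?_, ?_⟩
      · apply ext2
        · simp only [Finsupp.add_apply, ev_zero]; omega
        · simp
      · simp only [ev_zero, ev_one]; omega
      · rw [ev_zero]; exact h5
      · rw [ev_zero]; omega
  · rintro ⟨h4, h5⟩ (⟨t, ht, n, e1, e2, e3⟩ | ⟨t, ht, n, e1, e2, e3⟩)
    · apply h5
      rw [ht]
      simp only [Finsupp.add_apply, ev_zero]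
      exact ⟨by omega, by rwa [Nat.add_sub_cancel_left]⟩
    · rw [ht] at h1 h4
      simp only [Finsupp.add_apply, ev_zero, ev_one, zero_add] at h1 h4
      have h6 : m * d = (n + 1) * d := by rw [add_mul, one_mul]; omega
      have h7 : m = n + 1 := Nat.eq_of_mul_eq_mul_right hd h6
      omega

end Q36.MC
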