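import Mathlib
import Pool.Agent.Q36.MC.Ring

set_option autoImplicit false

namespace Q36.MC

open MvPolynomial

variable {k : Type*} [Field k] {T : AddSubmonoid ℕ} {F d : ℕ} {A : Finset ℕ}

theorem gen_mem_ring {a : ℕ} (ha : a ∈ full d A) : gen k d a ∈ coordRing k d (full d A) :=
  Algebra.subset_adjoin ⟨a, ha, rfl⟩

/-- generator as an element of the ring. -/
noncomputable def gx (k : Type*) [Field k] (d : ℕ) (A : Finset ℕ) (a : ℕ) (ha : a ∈ full d A) :
    coordRing k d (full d A) := ⟨gen k d a, gen_mem_ring ha⟩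

theorem d_full : d ∈ full d A := (mem_full d).mpr (Or.inr (Or.inl rfl))
theorem zero_full : 0 ∈ full d A := (mem_full 0).mpr (Or.inl rfl)

/-- the element `u ^ d`. -/
noncomputable def gU (k : Type*) [Field k] (d : ℕ) (A : Finset ℕ) : coordRing k d (full d A) :=
  gx k d A d d_full

/-- the element `v ^ d`. -/
noncomputable def gV (k : Type*) [Field k] (d : ℕ) (A : Finset ℕ) : coordRing k d (full d A) :=
  gx k d A 0 zero_full

theorem gU_coe : ((gU k d A : coordRing k d (full d A)) : MvPolynomial (Fin 2) k) =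
    monomial (ev d 0) 1 := by
  change gen k d d = _
  rw [gen_eq, Nat.sub_self]

theorem gV_coe : ((gV k d A : coordRing k d (full d A)) : MvPolynomial (Fin 2) k) =
    monomial (ev 0 d) 1 := by
  change gen k d 0 = _
  rw [gen_eq, Nat.sub_zero]

/-- coefficient of a monomial multiple. -/
theorem coeff_mono_mul (t s : Fin 2 →₀ ℕ) (p : MvPolynomial (Fin 2) k) :
    coeff (t + s) (monomial t 1 * p) = coeff s p := by
  rw [coeff_monomial_mul, one_mul]

theorem supp_mono_mul {t s : Fin 2 →₀ ℕ} {p : MvPolynomial (Fin 2) k}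
    (h : s ∈ (monomial t 1 * p).support) : ∃ r ∈ p.support, s = t + r := by
  classical
  rw [mem_support_iff, coeff_monomial_mul'] at h
  split_ifs at h with hle
  · refine ⟨s - t, ?_, (add_tsub_cancel_of_le hle).symm⟩
    rw [mem_support_iff]
    intro h0
    rw [h0, mul_zero] at h
    exact h rfl
  · exact absurd rfl h

theorem split_J (D : Data T F d A) (p : MvPolynomial (Fin 2) k) (hp : ∀ s ∈ p.support, InJ T d A s) :
    ∃ a b : coordRing k d (full d A), p = monomial (ev d 0) 1 * (a : MvPolynomial (Fin 2) k) +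
      monomial (ev 0 d) 1 * (b : MvPolynomial (Fin 2) k) := by
  classical
  have key : ∀ (W : Finset (Fin 2 →₀ ℕ)), W ⊆ p.support → ∃ a b : coordRing k d (full d A),
      ∑ s ∈ W, monomial s (coeff s p) = monomial (ev d 0) 1 * (a : MvPolynomial (Fin 2) k) +
      monomial (ev 0 d) 1 * (b : MvPolynomial (Fin 2) k) := by
    intro W
    induction W using Finset.induction_on with
    | empty => intro _; exact ⟨0, 0, by simp⟩
    | insert s W hs ih =>
      intro hW
      obtain ⟨a, b, hab⟩ := ih (fun x hx => hW (Finset.mem_insert_of_mem hx))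
      rw [Finset.sum_insert hs, hab]
      rcases hp s (hW (Finset.mem_insert_self s W)) with ⟨t, ht, htB⟩ | ⟨t, ht, htB⟩
      · refine ⟨a + ⟨monomial t (coeff s p), monomial_mem D htB _⟩, b, ?_⟩
        have : monomial s (coeff s p) = monomial (ev d 0) 1 * monomial t (coeff s p) := by
          rw [monomial_mul, one_mul, ← ht]
        rw [this]
        simp only [Subalgebra.coe_add]
        ring
      · refine ⟨a, b + ⟨monomial t (coeff s p), monomial_mem D htB _⟩, ?_⟩
        have : monomial s (coeff s p) = monomial (ev 0 d) 1 * monomial t (coeff s p) := by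
          rw [monomial_mul, one_mul, ← ht]
        rw [this]
        simp only [Subalgebra.coe_add]
        ring
  obtain ⟨a, b, hab⟩ := key p.support (Finset.Subset.refl _)
  refine ⟨a, b, ?_⟩
  rw [← hab]
  exact p.as_sum

theorem mem_J (D : Data T F d A) (p : coordRing k d (full d A)) :
    p ∈ Ideal.span {gU k d A, gV k d A} ↔
      ∀ s ∈ (p : MvPolynomial (Fin 2) k).support, InJ T d A s := by
  classical
  rw [Ideal.mem_span_pair]
  constructor
  · rintro ⟨a, b, hab⟩ s hs
    have h1 : (p : MvPolynomial (Fin 2) k) = monomial (ev d 0) 1 * (a : MvPolynomial (Fin 2) k) +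
      monomial (ev 0 d) 1 * (b : MvPolynomial (Fin 2) k) := by
      rw [← hab]
      simp only [Subalgebra.coe_add, Subalgebra.coe_mul, gU_coe, gV_coe]
      ring
    rw [h1] at hs
    rcases Finset.mem_union.mp (support_add hs) with h | h
    · obtain ⟨r, hr, he⟩ := supp_mono_mul h
      exact Or.inl ⟨r, he, (mem_ring D _).mp a.2 r hr⟩
    · obtain ⟨r, hr, he⟩ := supp_mono_mul h
      exact Or.inr ⟨r, he, (mem_ring D _).mp b.2 r hr⟩
  · intro h
    obtain ⟨a, b, hab⟩ := split_J D _ h
    refine ⟨a, b, ?_⟩
    apply Subtype.ext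
    simp only [Subalgebra.coe_add, Subalgebra.coe_mul, gU_coe, gV_coe]
    rw [hab]; ring

theorem reg_UV (D : Data T F d A) : Reg2 (gU k d A) (gV k d A) := by
  constructor
  · intro a ha
    have h1 : gU k d A ≠ 0 := by
      intro h
      have h2 := congrArg (fun r : coordRing k d (full d A) => (r : MvPolynomial (Fin 2) k)) h
      simp only [gU_coe] at h2
      have h3 := congrArg (coeff (ev d 0)) h2
      simp at h3
    exact (mul_eq_zero.mp ha).resolve_left h1
  · rintro a ⟨b, hb⟩
    have hb' : monomial (ev 0 d) 1 * (a : MvPolynomial (Fin 2) k) =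
        monomial (ev d 0) 1 * (b : MvPolynomial (Fin 2) k) := by
      have := congrArg (fun r : coordRing k d (full d A) => (r : MvPolynomial (Fin 2) k)) hb
      simpa only [Subalgebra.coe_mul, gU_coe, gV_coe] using this
    have h1 : ∀ s ∈ (a : MvPolynomial (Fin 2) k).support, ∃ t, s = ev d 0 + t ∧ InB T d A t := by
      intro s hs
      have h2 : ev 0 d + s ∈ (monomial (ev 0 d) 1 * (a : MvPolynomial (Fin 2) k)).support := by
        rw [mem_support_iff, coeff_mono_mul]
        exact mem_support_iff.mp hs
      rw [hb'] at h2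
      obtain ⟨r, hr, he⟩ := supp_mono_mul h2
      have e0 := DFunLike.congr_fun he 0
      have e1 := DFunLike.congr_fun he 1
      simp only [Finsupp.add_apply, ev_zero, ev_one, zero_add] at e0 e1
      refine ⟨ev (s 0 - d) (s 1), ?_, ?_⟩
      · apply ext2
        · simp only [Finsupp.add_apply, ev_zero]; omega
        · simp
      · apply InB_left D
        · have : ev d 0 + ev (s 0 - d) (s 1) = s := by
            apply ext2
            · simp only [Finsupp.add_apply, ev_zero]; omega
            · simp
          rw [this]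
          exact (mem_ring D _).mp a.2 s hs
        · have : ev 0 d + ev (s 0 - d) (s 1) = r := by
            apply ext2
            · simp only [Finsupp.add_apply, ev_zero]; omega
            · simp only [Finsupp.add_apply, ev_one]; omega
          rw [this]
          exact (mem_ring D _).mp b.2 r hr
    classical
    have key : ∀ (W : Finset (Fin 2 →₀ ℕ)), W ⊆ (a : MvPolynomial (Fin 2) k).support →
        ∃ c : coordRing k d (full d A),
        ∑ s ∈ W, monomial s (coeff s (a : MvPolynomial (Fin 2) k)) =
          monomial (ev d 0) 1 * (c : MvPolynomial (Fin 2) k) := by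
      intro W
      induction W using Finset.induction_on with
      | empty => intro _; exact ⟨0, by simp⟩
      | insert s W hs ih =>
        intro hW
        obtain ⟨c, hc⟩ := ih (fun x hx => hW (Finset.mem_insert_of_mem hx))
        obtain ⟨t, ht, htB⟩ := h1 s (hW (Finset.mem_insert_self s W))
        rw [Finset.sum_insert hs, hc]
        refine ⟨⟨monomial t (coeff s (a : MvPolynomial (Fin 2) k)), monomial_mem D htB _⟩ + c, ?_⟩
        have : monomial s (coeff s (a : MvPolynomial (Fin 2) k)) =
            monomial (ev d 0) 1 * monomial t (coeff s (a : MvPolynomial (Fin 2) k)) := by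
          rw [monomial_mul, one_mul, ← ht]
        rw [this]
        simp only [Subalgebra.coe_add]
        ring
    obtain ⟨c, hc⟩ := key _ (Finset.Subset.refl _)
    refine ⟨c, ?_⟩
    apply Subtype.ext
    simp only [Subalgebra.coe_mul, gU_coe]
    rw [← hc]
    exact (a : MvPolynomial (Fin 2) k).as_sum

/-- the augmentation. -/
noncomputable def aug (k : Type*) [Field k] (d : ℕ) (A : Finset ℕ) :
    coordRing k d (full d A) →+* k :=
  (constantCoeff : MvPolynomial (Fin 2) k →+* k).comp (coordRing k d (full d A)).val.toRingHom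

theorem irr_le (D : Data T F d A) : irr k d (full d A) ≤ RingHom.ker (aug k d A) := by
  rw [irr, Ideal.span_le]
  rintro r ⟨a, ha, hr⟩
  have h1 : aug k d A r = constantCoeff (r : MvPolynomial (Fin 2) k) := rfl
  have h0 := d_pos D
  rw [SetLike.mem_coe, RingHom.mem_ker, h1, hr, gen]
  simp only [map_mul, map_pow, constantCoeff_X]
  by_cases ha0 : a = 0
  · subst ha0
    rw [Nat.sub_zero, zero_pow h0.ne', mul_zero]
  · rw [zero_pow ha0, zero_mul]

theorem irr_ne_top (D : Data T F d A) : irr k d (full d A) ≠ ⊤ := by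
  intro h
  have h1 := irr_le (k := k) D
  rw [h, top_le_iff] at h1
  exact RingHom.ker_ne_top (aug k d A) h1

theorem gx_mem_irr {a : ℕ} (ha : a ∈ full d A) : gx k d A a ha ∈ irr k d (full d A) :=
  Ideal.subset_span ⟨a, ha, rfl⟩

theorem span_ne_top (D : Data T F d A) : Ideal.span {gU k d A, gV k d A} ≠ ⊤ := by
  intro h
  apply irr_ne_top (k := k) D
  rw [eq_top_iff, ← h, Ideal.span_le]
  rintro r (rfl | rfl)
  · exact gx_mem_irr d_full
  · exact gx_mem_irr zero_full

theorem colon_iff (p : coordRing k d (full d A)) (I : Ideal (coordRing k d (full d A))) :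
    (∀ r ∈ irr k d (full d A), r * p ∈ I) ↔ ∀ a (ha : a ∈ full d A), gx k d A a ha * p ∈ I := by
  constructor
  · intro h a ha
    exact h _ (gx_mem_irr ha)
  · intro h r hr
    have hle : irr k d (full d A) ≤ Submodule.comap (LinearMap.mulRight (coordRing k d (full d A)) p) I := by
      rw [irr, Ideal.span_le]
      rintro r ⟨a, ha, hr⟩
      have : r = gx k d A a ha := Subtype.ext hr
      rw [this]
      exact h a ha
    exact hle hr

theorem gx_mul_coe {a : ℕ} (ha : a ∈ full d A) (p : coordRing k d (full d A)) :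
    ((gx k d A a ha * p : coordRing k d (full d A)) : MvPolynomial (Fin 2) k) =
      monomial (ev a (d - a)) 1 * (p : MvPolynomial (Fin 2) k) := by
  rw [Subalgebra.coe_mul]
  change gen k d a * _ = _
  rw [gen_eq]

/-- exponent of the socle elements. -/
noncomputable def sf (d f : ℕ) : Fin 2 →₀ ℕ := ev (d + f) (2 * d - f)

theorem sf_facts (D : Data T F d A) {f : ℕ} (hf : f ∈ PFN T) :
    (sf d f) 0 + (sf d f) 1 = 3 * d ∧ (sf d f) 0 ∈ T ∧ kap T d A ((sf d f) 0) = 3 := by
  have h1 := le_F D hf.1
  have h2 := D.hFd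
  simp only [sf, ev_zero, ev_one]
  refine ⟨by omega, D.hF' _ (by omega), ?_⟩
  rw [add_comm, kap_add_d D, kap_lt f (by omega), wt_P D hf]

theorem sf_InB (D : Data T F d A) {f : ℕ} (hf : f ∈ PFN T) : InB T d A (sf d f) := by
  obtain ⟨h1, h2, h3⟩ := sf_facts D hf
  exact ⟨3, h1, h2, h3.le⟩

theorem sf_not_InJ (D : Data T F d A) {f : ℕ} (hf : f ∈ PFN T) : ¬ InJ T d A (sf d f) := by
  obtain ⟨h1, h2, h3⟩ := sf_facts D hf
  rw [InJ_iff D h1 h2 h3.le]
  refine ⟨h3, ?_⟩
  simp only [sf, ev_zero, Nat.add_sub_cancel_left]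
  exact fun h => hf.1 h.2

/-- the socle element is killed by the generators. -/
theorem sf_soc (D : Data T F d A) {f : ℕ} (hf : f ∈ PFN T) {a : ℕ} (ha : a ∈ full d A) :
    InJ T d A (ev a (d - a) + sf d f) := by
  by_contra hcon
  obtain ⟨h1, h2, h3⟩ := sf_facts D hf
  have had : a ≤ d := by
    rw [mem_full] at ha
    rcases ha with h | h | h
    · omega
    · omega
    · have := (D.mem a h).2.2; omega
  have haT : a ∈ T := by
    rw [mem_full] at ha
    rcases ha with rfl | rfl | h
    · exact T.zero_mem
    · exact d_mem D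
    · exact (D.mem a h).1
  have hB := InB_add D (InB_gen D ha) (sf_InB D hf)
  obtain ⟨m, e1, e2, e3⟩ := hB
  have hm : m = 4 := by
    simp only [Finsupp.add_apply, ev_zero, ev_one] at e1
    have : m * d = 4 * d := by omega
    exact Nat.eq_of_mul_eq_mul_right (d_pos D) this
  rw [InJ_iff D e1 e2 e3] at hcon
  obtain ⟨h4, h5⟩ := hcon
  have h0 : (ev a (d - a) + sf d f) 0 = d + (f + a) := by
    simp only [Finsupp.add_apply, ev_zero, sf]; omega
  rw [h0] at h4 h5
  by_cases ha0 : a = 0
  · subst ha0
    have h6 : kap T d A (d + f) = 3 := by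
      have := h3
      simpa [sf] using this
    rw [add_zero] at h4
    omega
  · apply h5
    refine ⟨by omega, ?_⟩
    rw [Nat.add_sub_cancel_left]
    exact hf.2 a haT ha0

/-- an element killed by the generators with no socle coefficient is in the ideal. -/
theorem soc_inj (D : Data T F d A) (p : coordRing k d (full d A))
    (hp : ∀ a (ha : a ∈ full d A), gx k d A a ha * p ∈ Ideal.span {gU k d A, gV k d A})
    (h0 : ∀ f ∈ PFN T, coeff (sf d f) (p : MvPolynomial (Fin 2) k) = 0) :
    p ∈ Ideal.span {gU k d A, gV k d A} := by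
  rw [mem_J D]
  intro s hs
  by_contra hcon
  obtain ⟨m, e1, e2, e3⟩ := (mem_ring D _).mp p.2 s hs
  obtain ⟨h1, h2⟩ := (InJ_iff D e1 e2 e3).mp hcon
  by_cases hP : d ≤ s 0 ∧ s 0 - d ∈ PFN T
  · have hf := sf_facts D hP.2
    have hs0 : s 0 = (sf d (s 0 - d)) 0 := by
      simp only [sf, ev_zero]; omega
    have hm : m = 3 := by
      rw [← h1, hs0]; exact hf.2.2
    have : s = sf d (s 0 - d) := by
      apply ext2 hs0
      have := hf.1
      rw [hm] at e1
      omega
    have h3 := h0 _ hP.2
    rw [← this] at h3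
    exact (mem_support_iff.mp hs) h3
  · obtain ⟨a, ha, h3, h4⟩ := exists_up D e2 h2 hP
    have haf : a ∈ full d A := (mem_full a).mpr (Or.inr (Or.inr ha))
    have h5 := (mem_J D _).mp (hp a haf)
    rw [gx_mul_coe] at h5
    have h6 : ev a (d - a) + s ∈ (monomial (ev a (d - a)) 1 * (p : MvPolynomial (Fin 2) k)).support := by
      rw [mem_support_iff, coeff_mono_mul]
      exact mem_support_iff.mp hs
    have h7 := h5 _ h6
    have had := (D.mem a ha).2.2
    have e0 : (ev a (d - a) + s) 0 = s 0 + a := by
      simp only [Finsupp.add_apply, ev_zero]; omega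
    have g1 : (ev a (d - a) + s) 0 + (ev a (d - a) + s) 1 = (m + 1) * d := by
      simp only [Finsupp.add_apply, ev_zero, ev_one, add_mul, one_mul]; omega
    have g2 : (ev a (d - a) + s) 0 ∈ T := by
      rw [e0]; exact T.add_mem e2 (D.mem a ha).1
    have g3 : kap T d A ((ev a (d - a) + s) 0) = m + 1 := by
      rw [e0, h3, h1]
    have h8 := (InJ_iff D g1 g2 g3.le).mpr ⟨g3, by rw [e0]; exact h4⟩
    exact h8 h7

end Q36.MC
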