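import Mathlib
import Pool.Agent.Q36.MC.Soc

set_option autoImplicit false

namespace Q36.MC

open MvPolynomial

variable {k : Type*} [Field k] {T : AddSubmonoid ℕ} {F d : ℕ} {A : Finset ℕ}

/-- socle coefficients. -/
noncomputable def phi (k : Type*) [Field k] (T : AddSubmonoid ℕ) (d : ℕ) (A : Finset ℕ) :
    coordRing k d (full d A) →ₗ[k] (PFN T → k) where
  toFun p := fun f => coeff (sf d f) (p : MvPolynomial (Fin 2) k)
  map_add' := by
    intro p q
    ext f
    simp
  map_smul' := by
    intro c p
    ext f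
    simp

theorem phi_surj (D : Data T F d A) (g : PFN T → k) : ∃ p : coordRing k d (full d A),
    (∀ r ∈ irr k d (full d A), r * p ∈ Ideal.span {gU k d A, gV k d A}) ∧ phi k T d A p = g := by
  classical
  have hfin : (PFN T).Finite := Set.Finite.subset (Set.finite_Iic F) (fun f hf => le_F D hf.1)
  have : Fintype (PFN T) := hfin.fintype
  let p : coordRing k d (full d A) := ∑ f : PFN T, ⟨monomial (sf d f) (g f), monomial_mem D (sf_InB D f.2) _⟩
  have hp : (p : MvPolynomial (Fin 2) k) = ∑ f : PFN T, monomial (sf d f) (g f) := by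
    simp only [p]
    rw [AddSubmonoidClass.coe_finsetSum]
  refine ⟨p, ?_, ?_⟩
  · rw [colon_iff]
    intro a ha
    rw [mem_J D, gx_mul_coe, hp]
    intro s hs
    obtain ⟨r, hr, he⟩ := supp_mono_mul hs
    have h1 := support_sum hr
    rw [Finset.mem_biUnion] at h1
    obtain ⟨f, _, hf⟩ := h1
    have h2 := support_monomial_subset hf
    rw [Finset.mem_singleton] at h2
    rw [he, h2]
    exact sf_soc D f.2 ha
  · ext f
    change coeff (sf d f) (p : MvPolynomial (Fin 2) k) = g f
    rw [hp, coeff_sum]
    rw [Finset.sum_eq_single f]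
    · rw [coeff_monomial, if_pos rfl]
    · intro f' _ hne
      rw [coeff_monomial, if_neg]
      intro h
      apply hne
      have := DFunLike.congr_fun h 0
      simp only [sf, ev_zero] at this
      exact Subtype.ext (by omega)
    · intro h; exact absurd (Finset.mem_univ f) h

theorem finrank_soc (D : Data T F d A) :
    Module.finrank k (soc (irr k d (full d A)) (gU k d A) (gV k d A)) = (PFN T).ncard := by
  classical
  have hfin : (PFN T).Finite := Set.Finite.subset (Set.finite_Iic F) (fun f hf => le_F D hf.1)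
  have : Fintype (PFN T) := hfin.fintype
  rw [← Nat.card_coe_set_eq, Nat.card_eq_fintype_card]
  refine soc_finrank_of _ _ _ (phi k T d A) ?_ ?_ (phi_surj D)
  · intro p hp h0
    rw [colon_iff] at hp
    apply soc_inj D _ hp
    intro f hf
    exact congrFun h0 ⟨f, hf⟩
  · intro p hp
    ext f
    change coeff (sf d f) (p : MvPolynomial (Fin 2) k) = 0
    by_contra hne
    exact sf_not_InJ D f.2 ((mem_J D _).mp hp _ (mem_support_iff.mpr hne))

theorem isCM (D : Data T F d A) : IsCMTwo (coordRing k d (full d A)) (irr k d (full d A)) :=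
  ⟨gU k d A, gx_mem_irr d_full, gV k d A, gx_mem_irr zero_full,
    (isRegular_iff2 _ _).mpr ⟨reg_UV D, span_ne_top D⟩⟩

theorem noeth : IsNoetherianRing (coordRing k d A) := by
  apply isNoetherianRing_of_fg
  refine Subalgebra.fg_def.mpr ⟨{p | ∃ a ∈ A, p = gen k d a}, ?_, rfl⟩
  have : {p : MvPolynomial (Fin 2) k | ∃ a ∈ A, p = gen k d a} = (gen k d) '' (A : Set ℕ) := by
    ext p
    constructor
    · rintro ⟨a, ha, rfl⟩; exact ⟨a, ha, rfl⟩
    · rintro ⟨a, ha, rfl⟩; exact ⟨a, ha, rfl⟩
  rw [this]
  exact (Finset.finite_toSet A).image _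

theorem hasType (D : Data T F d A) :
    HasType k (coordRing k d (full d A)) (irr k d (full d A)) (PFN T).ncard := by
  intro x hx y hy hreg
  have hn : IsNoetherianRing (coordRing k d (full d A)) := noeth
  have h1 := (isRegular_iff2 x y).mp hreg
  rw [← finrank_soc (k := k) D]
  exact soc_finrank (k := k) (irr_ne_top (k := k) D) hx hy (gx_mem_irr d_full) (gx_mem_irr zero_full)
    h1.1 (reg_UV D)

end Q36.MC
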