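import Mathlib
import Pool.Agent.Q36.MC.Fin

set_option autoImplicit false

namespace Q36.MC

theorem closure_full {T : AddSubmonoid ℕ} {F d : ℕ} {A : Finset ℕ} (D : Data T F d A) :
    AddSubmonoid.closure ((full d A : Finset ℕ) : Set ℕ) = T := by
  apply le_antisymm
  · rw [AddSubmonoid.closure_le]
    intro a ha
    rw [Finset.mem_coe, mem_full] at ha
    rcases ha with rfl | rfl | ha
    · exact T.zero_mem
    · exact d_mem D
    · exact (D.mem a ha).1
  · intro x
    induction x using Nat.strong_induction_on with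
    | _ x ih =>
      intro hx
      by_cases h0 : x = 0
      · rw [h0]; exact AddSubmonoid.zero_mem _
      by_cases hxs : x ≤ 2 * F + 2
      · exact AddSubmonoid.subset_closure
          (Finset.mem_coe.mpr ((mem_full x).mpr (Or.inr (Or.inr (D.small x hx (by omega) hxs)))))
      · have h1 : F + 1 ∈ AddSubmonoid.closure ((full d A : Finset ℕ) : Set ℕ) :=
          AddSubmonoid.subset_closure (Finset.mem_coe.mpr ((mem_full _).mpr
            (Or.inr (Or.inr (D.small _ (D.hF' _ (by omega)) (by omega) (by omega))))))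
        have h2 := ih (x - (F + 1)) (by omega) (D.hF' _ (by omega))
        have h3 := AddSubmonoid.add_mem _ h1 h2
        rwa [show F + 1 + (x - (F + 1)) = x by omega] at h3

theorem gcd_full {T : AddSubmonoid ℕ} {F d : ℕ} {A : Finset ℕ} (D : Data T F d A) :
    (full d A).gcd id = 1 := by
  have h1 : F + 1 ∈ full d A := (mem_full _).mpr
    (Or.inr (Or.inr (D.small _ (D.hF' _ (by omega)) (by omega) (by omega))))
  have h2 : F + 2 ∈ full d A := by
    by_cases hF0 : F = 0
    · exact absurd (hF0 ▸ T.zero_mem) D.hF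
    · exact (mem_full _).mpr
        (Or.inr (Or.inr (D.small _ (D.hF' _ (by omega)) (by omega) (by omega))))
  have g1 : (full d A).gcd id ∣ F + 1 := Finset.gcd_dvd h1
  have g2 : (full d A).gcd id ∣ F + 2 := Finset.gcd_dvd h2
  have g3 := (Nat.dvd_add_right g1).mp (by simpa using g2 : (full d A).gcd id ∣ (F + 1) + 1)
  exact Nat.dvd_one.mp g3

/-- description of the pseudo-Frobenius numbers. -/
theorem pseudo_eq {T : AddSubmonoid ℕ} (hT : ((T : Set ℕ)ᶜ).Finite) (hne : T ≠ ⊤) :
    pseudoFrobenius T = (fun n : ℕ => (n : ℤ)) '' PFN T := by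
  ext x
  constructor
  · rintro ⟨h1, h2⟩
    by_cases hx : 0 ≤ x
    · obtain ⟨n, rfl⟩ := Int.eq_ofNat_of_zero_le hx
      refine ⟨n, ⟨fun h => h1 ⟨n, h, rfl⟩, ?_⟩, rfl⟩
      intro s hs h0
      obtain ⟨m, hm, he⟩ := h2 s hs h0
      have : m = n + s := by exact_mod_cast he
      rw [← this]; exact hm
    · exfalso
      obtain ⟨n, hn⟩ : ∃ n : ℕ, x = -(n : ℤ) := ⟨(-x).toNat, by omega⟩
      subst hn
      have hn0 : 0 < n := by omega
      have key : ∀ s, s ∈ T → n ∣ s := by
        intro s
        induction s using Nat.strong_induction_on with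
        | _ s ih =>
          intro hs
          by_cases h0 : s = 0
          · rw [h0]; exact dvd_zero n
          · obtain ⟨m, hm, he⟩ := h2 s hs h0
            have h3 : s = m + n := by omega
            have h4 := ih m (by omega) hm
            rw [h3]
            exact (Nat.dvd_add_right h4).mpr dvd_rfl
      obtain ⟨N, hN⟩ := hT.bddAbove
      have hlarge : ∀ m, N < m → m ∈ T := by
        intro m hm
        by_contra h
        exact absurd (hN h) (by omega)
      have e1 := key _ (hlarge (N + 1) (by omega))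
      have e2 := key _ (hlarge (N + 1 + 1) (by omega))
      have e3 : n ∣ 1 := (Nat.dvd_add_right e1).mp e2
      have hn1 : n = 1 := Nat.dvd_one.mp e3
      subst hn1
      apply hne
      rw [eq_top_iff]
      have down : ∀ j m, N + 1 - m ≤ j → m ∈ T := by
        intro j
        induction j with
        | zero => intro m hm; exact hlarge m (by omega)
        | succ j ih =>
          intro m hm
          by_cases hmN : N < m
          · exact hlarge m hmN
          · have h3 := ih (m + 1) (by omega)
            obtain ⟨l, hl, he⟩ := h2 (m + 1) h3 (by omega)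
            have : l = m := by push_cast at he; omega
            rw [← this]; exact hl
      intro m _
      exact down _ m le_rfl
  · rintro ⟨n, ⟨h1, h2⟩, rfl⟩
    refine ⟨?_, ?_⟩
    · rintro ⟨m, hm, he⟩
      have : m = n := by
        have he' : (m : ℤ) = (n : ℤ) := he
        exact_mod_cast he'
      exact h1 (this ▸ hm)
    · intro s hs h0
      exact ⟨n + s, h2 s hs h0, by push_cast; ring⟩

theorem ncard_pseudo_top {T : AddSubmonoid ℕ} (h : T = ⊤) : (pseudoFrobenius T).ncard ≤ 1 := by
  have hsub : pseudoFrobenius T ⊆ {-1} := by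
    rintro x ⟨h1, h2⟩
    rw [Set.mem_singleton_iff]
    have hx : x < 0 := by
      by_contra hcon
      obtain ⟨n, rfl⟩ := Int.eq_ofNat_of_zero_le (not_lt.mp hcon)
      exact h1 ⟨n, by rw [h]; trivial, rfl⟩
    obtain ⟨m, _, he⟩ := h2 1 (by rw [h]; trivial) one_ne_zero
    push_cast at he
    omega
  have := Set.ncard_le_ncard hsub (Set.finite_singleton _)
  rwa [Set.ncard_singleton] at this

theorem main (k : Type*) [Field k] (T : AddSubmonoid ℕ) (hT : ((T : Set ℕ)ᶜ).Finite)
    (t : ℕ) (ht : 1 < t) (htype : (pseudoFrobenius T).ncard = t) :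
    ∃ (d : ℕ) (A : Finset ℕ), 0 < d ∧ 0 ∈ A ∧ d ∈ A ∧ (∀ a ∈ A, a ≤ d) ∧ A.gcd id = 1 ∧
      AddSubmonoid.closure (A : Set ℕ) = T ∧
      IsCMTwo (coordRing k d A) (irr k d A) ∧ HasType k (coordRing k d A) (irr k d A) t := by
  have hne : T ≠ ⊤ := by
    intro h
    have := ncard_pseudo_top h
    omega
  have hcne : ((T : Set ℕ)ᶜ).Nonempty := by
    rw [Set.nonempty_compl]
    intro h
    apply hne
    rw [eq_top_iff]
    intro x _
    have : x ∈ (T : Set ℕ) := by rw [h]; trivial
    exact this
  obtain ⟨F, hF, hmax⟩ : ∃ F ∈ ((T : Set ℕ)ᶜ), ∀ m ∈ ((T : Set ℕ)ᶜ), m ≤ F := by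
    obtain ⟨F, hF, h⟩ := Set.exists_max_image _ id hT hcne
    exact ⟨F, hF, h⟩
  have hF' : ∀ n, F < n → n ∈ T := by
    intro n hn
    by_contra h
    exact absurd (hmax n h) (by omega)
  obtain ⟨d, A, D⟩ := exists_data T F hF hF'
  refine ⟨d, full d A, d_pos D, zero_full, d_full, ?_, gcd_full D, closure_full D, isCM D, ?_⟩
  · intro a ha
    rw [mem_full] at ha
    rcases ha with rfl | rfl | ha
    · omega
    · omega
    · have := (D.mem a ha).2.2; omega
  · have h1 := hasType (k := k) D
    have h2 : (PFN T).ncard = t := by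
      rw [← htype, pseudo_eq hT hne, Set.ncard_image_of_injective _ Nat.cast_injective]
    rw [← h2]; exact h1

end Q36.MC
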